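import Mathlib
import Pool.Agent.H93.Un6

namespace Pool.Agent.Results.MP_dbb15e_gt.Product

/-- The subspace S of X embeds into H with distortion at most D. -/
def EmbedsWith {X : Type} [MetricSpace X] (S : Set X) (H : Type) [NormedAddCommGroup H]
    (D : ℝ) : Prop :=
  ∃ (f : S → H) (s : ℝ), 0 < s ∧ ∀ x y : S,
    s * dist (x : X) (y : X) ≤ ‖f x - f y‖ ∧ ‖f x - f y‖ ≤ s * D * dist (x : X) (y : X)

theorem result : ∃ c : ℝ, 0 < c ∧ ∀ DA DB : ℝ, 1 ≤ DA → 1 ≤ DB →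
    ∃ (X : Type) (_ : MetricSpace X) (_ : Finite X) (A B : Set X) (a b : ℕ),
      A ∪ B = Set.univ ∧
      EmbedsWith A (EuclideanSpace ℝ (Fin a)) DA ∧ EmbedsWith B (EuclideanSpace ℝ (Fin b)) DB ∧
      ∀ (H : Type) [NormedAddCommGroup H] [InnerProductSpace ℝ H] (D : ℝ),
        EmbedsWith (Set.univ : Set X) H D → c * DA * DB ≤ D :=
  ⟨1 / 200000, by norm_num, fun _ _ hA hB => H93Un.main hA hB⟩

end Pool.Agent.Results.MP_dbb15e_gt.Product
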